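import Mathlib
import Pool.Agent.H85.Levels

/-!
# A finitely generated solvable group of interval exchanges with flips that is not realizable

The definitions follow the text of the problem.  The group is generated by the classes of two
rationally independent rotations `r_α`, `r_β`, the rotation `z` by `1/2`, the reflection
`τ : x ↦ -x`, and two maps `g_s`, `g_t` that exchange `x` and `x + 1/2` when `2x` lies in an arc
`[0,s)` or `[0,t)`, where `s = 2α` and `t = 2β`.
-/

open Equiv Filter Topology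
open scoped commutatorElement

namespace Pool.Agent.Results.MP_f6bc98_an.NotRealizable

open Pool.Agent.H85

/-- The group `PC^` of all bijections of the circle `S = ℝ/ℤ` that are continuous at all but
finitely many points. -/
def PChat : Subgroup (Perm UnitAddCircle) where
  carrier := {f | {x | ¬ ContinuousAt f x}.Finite}
  one_mem' := by
    have : {x : UnitAddCircle | ¬ ContinuousAt (1 : Perm UnitAddCircle) x} = ∅ := by
      ext x
      simp only [Set.mem_ofPred_eq, Set.mem_empty_iff_false, iff_false, not_not]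
      exact continuousAt_id
    show {x : UnitAddCircle | ¬ ContinuousAt (1 : Perm UnitAddCircle) x}.Finite
    rw [this]
    exact Set.finite_empty
  mul_mem' := by
    intro f g hf hg
    have h1 : (g ⁻¹' {x | ¬ ContinuousAt f x}).Finite := Set.Finite.preimage g.injective.injOn hf
    refine (hg.union h1).subset ?_
    intro x hx
    by_contra hcon
    simp only [Set.mem_union, Set.mem_ofPred_eq, Set.mem_preimage, not_or, not_not] at hcon
    exact hx (ContinuousAt.comp (g := f) hcon.2 hcon.1)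
  inv_mem' := by
    intro f hf
    have h1 : (f '' {x | ¬ ContinuousAt f x}).Finite := Set.Finite.image f hf
    refine h1.subset ?_
    intro y hy
    by_contra hcon
    apply hy
    have h2 : ContinuousAt f (f⁻¹ y) := by
      by_contra h3
      exact hcon ⟨f⁻¹ y, h3, f.apply_symm_apply y⟩
    have h3 := continuousAt_inv hf h2
    have e : f (f⁻¹ y) = y := f.apply_symm_apply y
    rw [e] at h3
    exact h3

/-- The normal subgroup of finitely supported permutations of the circle. -/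
def Sfin : Subgroup PChat where
  carrier := {f | {x | f.1 x ≠ x}.Finite}
  one_mem' := (FS UnitAddCircle).one_mem
  mul_mem' := by
    intro f g hf hg
    exact (FS UnitAddCircle).mul_mem hf hg
  inv_mem' := by
    intro f hf
    exact (FS UnitAddCircle).inv_mem hf

instance : Sfin.Normal where
  conj_mem := by
    intro f hf g
    exact (inferInstance : (FS UnitAddCircle).Normal).conj_mem f.1 hf g.1

/-- The group `PC^⋈(S) = PC^ / 𝔖_fin`. -/
abbrev PCbow : Type := PChat ⧸ Sfin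

/-- A subgroup `Γ` of `PC^⋈(S)` is realizable if the quotient map `π : PC^ → PC^⋈(S)` restricts
to a bijection from some subgroup `Λ` of `PC^` onto `Γ`. -/
def Realizable (Γ : Subgroup PCbow) : Prop :=
  ∃ Λ : Subgroup PChat, Set.BijOn (QuotientGroup.mk' Sfin) Λ Γ

/-- A permutation of the circle is piecewise isometric if, for some finite set `F`, it has the
form `x ↦ ± x + c` on every connected set that avoids `F` (in particular on each of the finitely
many open intervals into which `F` divides the circle). -/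
def PiecewiseIsometric (f : Perm UnitAddCircle) : Prop :=
  ∃ F : Set UnitAddCircle, F.Finite ∧ ∀ U : Set UnitAddCircle, IsPreconnected U → Disjoint U F →
    ∃ ε : ℤ, (ε = 1 ∨ ε = -1) ∧ ∃ c : UnitAddCircle, ∀ x ∈ U, f x = ε • x + c

/-- The elements of `IET^⋈(S)`: classes that have a piecewise isometric representative. -/
def IsIET (γ : PCbow) : Prop :=
  ∃ f : PChat, (QuotientGroup.mk f : PCbow) = γ ∧ PiecewiseIsometric f.1

/-! ### The generators -/

lemma locIso_mem {f : Perm UnitAddCircle} (hf : LocIso f) : f ∈ PChat := by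
  refine Set.Finite.subset hf ?_
  intro x hx h
  exact hx (LI.continuousAt h)

lemma LocIso.piecewise {f : Perm UnitAddCircle} (hf : LocIso f) : PiecewiseIsometric f :=
  ⟨_, hf, fun _ hU hd => LocIso.on_connected hU hd⟩

/-- `s = √2 - 1` -/
noncomputable def ss : ℝ := √2 - 1

/-- `t = 2 - √3` -/
noncomputable def tt : ℝ := 2 - √3

lemma sqrt2_bounds : 1.4 < √2 ∧ √2 < 1.45 := by
  constructor
  · rw [Real.lt_sqrt (by norm_num)]; norm_num
  · rw [Real.sqrt_lt' (by norm_num)]; norm_num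

lemma sqrt3_bounds : 1.7 < √3 ∧ √3 < 1.75 := by
  constructor
  · rw [Real.lt_sqrt (by norm_num)]; norm_num
  · rw [Real.sqrt_lt' (by norm_num)]; norm_num

lemma ss_pos : 0 < ss := by unfold ss; linarith [sqrt2_bounds.1]
lemma ss_lt : ss < 1 / 2 := by unfold ss; linarith [sqrt2_bounds.2]
lemma tt_pos : 0 < tt := by unfold tt; linarith [sqrt3_bounds.2]
lemma tt_lt : tt < 1 / 2 := by unfold tt; linarith [sqrt3_bounds.1]

lemma indep (m n k : ℤ) (h : (m : ℝ) * ss + n * tt = k) : m = 0 ∧ n = 0 := by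
  have h1 : (m : ℝ) * √2 - n * √3 = ((k + m - 2 * n : ℤ) : ℝ) := by
    push_cast
    unfold ss tt at h
    linarith
  set j : ℤ := k + m - 2 * n with hj
  have s2 : √2 * √2 = (2 : ℝ) := Real.mul_self_sqrt (by norm_num)
  have s3 : √3 * √3 = (3 : ℝ) := Real.mul_self_sqrt (by norm_num)
  have s6 : √2 * √3 = √6 := by
    rw [← Real.sqrt_mul (by norm_num)]; norm_num
  have h2 : 2 * (m : ℝ) * n * √6 = 2 * m ^ 2 + 3 * n ^ 2 - j ^ 2 := by
    have h3 : ((m : ℝ) * √2 - n * √3) ^ 2 = (j : ℝ) ^ 2 := by rw [h1]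
    rw [← s6]
    linear_combination (m : ℝ) ^ 2 * s2 + (n : ℝ) ^ 2 * s3 - h3
  have irr6 : Irrational √6 := by
    rw [irrational_sqrt_ofNat_iff]
    rintro ⟨r, hr⟩
    have : r ≤ 2 := by nlinarith
    interval_cases r <;> omega
  have irr2 : Irrational √2 := irrational_sqrt_two
  have irr3 : Irrational √3 := by
    rw [irrational_sqrt_ofNat_iff]
    rintro ⟨r, hr⟩
    have : r ≤ 1 := by nlinarith
    interval_cases r <;> omega
  have hmn : m * n = 0 := by
    by_contra hne
    apply irr6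
    refine ⟨((2 * m ^ 2 + 3 * n ^ 2 - j ^ 2 : ℤ) : ℚ) / ((2 * (m * n) : ℤ) : ℚ), ?_⟩
    have hne' : ((m : ℝ) * n) ≠ 0 := by exact_mod_cast hne
    push_cast
    rw [div_eq_iff (by positivity)]
    linear_combination -h2
  rcases mul_eq_zero.1 hmn with hm | hn
  · refine ⟨hm, ?_⟩
    by_contra hne
    have hne' : (n : ℝ) ≠ 0 := by exact_mod_cast hne
    apply irr3
    refine ⟨-(j : ℚ) / (n : ℚ), ?_⟩
    push_cast
    rw [div_eq_iff hne']
    rw [hm] at h1
    push_cast at h1
    linarith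
  · refine ⟨?_, hn⟩
    by_contra hne
    have hne' : (m : ℝ) ≠ 0 := by exact_mod_cast hne
    apply irr2
    refine ⟨(j : ℚ) / (m : ℚ), ?_⟩
    push_cast
    rw [div_eq_iff hne']
    rw [hn] at h1
    push_cast at h1
    linarith

/-- `α = s/2` -/
noncomputable def al : UnitAddCircle := ((ss / 2 : ℝ) : UnitAddCircle)
/-- `β = t/2` -/
noncomputable def be : UnitAddCircle := ((tt / 2 : ℝ) : UnitAddCircle)

noncomputable def gA : PChat := ⟨rot al, locIso_mem (locIso_rot _)⟩
noncomputable def gB : PChat := ⟨rot be, locIso_mem (locIso_rot _)⟩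
noncomputable def gZ : PChat := ⟨rot hh, locIso_mem (locIso_rot _)⟩
noncomputable def gR : PChat := ⟨negP, locIso_mem locIso_neg⟩
noncomputable def gU : PChat :=
  ⟨flip ss, locIso_mem (locIso_flip ss_pos (by linarith [ss_lt]))⟩
noncomputable def gV : PChat :=
  ⟨flip tt, locIso_mem (locIso_flip tt_pos (by linarith [tt_lt]))⟩

/-- the quotient map -/
abbrev pi : PChat →* PCbow := QuotientGroup.mk' Sfin

/-- the six generators -/
noncomputable def gens : Set PCbow := {pi gA, pi gB, pi gZ, pi gR, pi gU, pi gV}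

/-- the group generated by the six classes -/
noncomputable def Gam : Subgroup PCbow := Subgroup.closure gens

lemma gens_finite : gens.Finite := by
  unfold gens
  exact Set.toFinite _

lemma Gam_fg : Gam.FG := by
  rw [Subgroup.fg_iff]
  exact ⟨gens, rfl, gens_finite⟩

/-- classes with a representative that is locally isometric off a finite set -/
def HI : Subgroup PCbow where
  carrier := {γ | ∃ f : PChat, pi f = γ ∧ LocIso f.1}
  one_mem' := ⟨1, map_one _, by
    have := locIso_rot 0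
    rw [rot_zero] at this
    exact this⟩
  mul_mem' := by
    rintro _ _ ⟨f, rfl, hf⟩ ⟨g, rfl, hg⟩
    exact ⟨f * g, map_mul _ _ _, hf.mul hg⟩
  inv_mem' := by
    rintro _ ⟨f, rfl, hf⟩
    exact ⟨f⁻¹, map_inv _ _, hf.inv⟩

/-- classes of maps that are `± x + c` up to `1/2` -/
def H0 : Subgroup PCbow where
  carrier := {γ | ∃ f : PChat, pi f = γ ∧ ∃ ε : ℤ, (ε = 1 ∨ ε = -1) ∧ ∃ c, LevQ ε c f.1}
  one_mem' := ⟨1, map_one _, 1, Or.inl rfl, 0, LevQ.one⟩
  mul_mem' := by
    rintro _ _ ⟨f, rfl, ε, hε, c, hf⟩ ⟨g, rfl, ε', hε', c', hg⟩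
    refine ⟨f * g, map_mul _ _ _, ε * ε', ?_, _, hf.mul hε hg⟩
    rcases hε with rfl | rfl <;> rcases hε' with rfl | rfl <;> simp
  inv_mem' := by
    rintro _ ⟨f, rfl, ε, hε, c, hf⟩
    exact ⟨f⁻¹, map_inv _ _, ε, hε, _, hf.inv hε⟩

/-- classes of maps that are `x + c` up to `1/2` -/
def H1 : Subgroup PCbow where
  carrier := {γ | ∃ f : PChat, pi f = γ ∧ ∃ c, LevQ 1 c f.1}
  one_mem' := ⟨1, map_one _, 0, LevQ.one⟩
  mul_mem' := by
    rintro _ _ ⟨f, rfl, c, hf⟩ ⟨g, rfl, c', hg⟩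
    exact ⟨f * g, map_mul _ _ _, _, hf.mul (Or.inl rfl) hg⟩
  inv_mem' := by
    rintro _ ⟨f, rfl, c, hf⟩
    exact ⟨f⁻¹, map_inv _ _, _, hf.inv (Or.inl rfl)⟩

/-- classes of maps that are the identity up to `1/2` -/
def H2 : Subgroup PCbow where
  carrier := {γ | ∃ f : PChat, pi f = γ ∧ LevQ 1 0 f.1}
  one_mem' := ⟨1, map_one _, LevQ.one⟩
  mul_mem' := by
    rintro _ _ ⟨f, rfl, hf⟩ ⟨g, rfl, hg⟩
    refine ⟨f * g, map_mul _ _ _, ?_⟩
    have := hf.mul (Or.inl rfl) hg
    simpa using this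
  inv_mem' := by
    rintro _ ⟨f, rfl, hf⟩
    refine ⟨f⁻¹, map_inv _ _, ?_⟩
    have := hf.inv (Or.inl rfl)
    simpa using this

lemma comm01 : ⁅H0, H0⁆ ≤ H1 := by
  rw [Subgroup.commutator_le]
  rintro _ ⟨f, rfl, ε, hε, c, hf⟩ _ ⟨g, rfl, ε', hε', c', hg⟩
  obtain ⟨d, hd, -⟩ := LevQ.comm hε hε' hf hg
  exact ⟨⁅f, g⁆, map_commutatorElement _ _ _, d, hd⟩

lemma comm12 : ⁅H1, H1⁆ ≤ H2 := by
  rw [Subgroup.commutator_le]
  rintro _ ⟨f, rfl, c, hf⟩ _ ⟨g, rfl, c', hg⟩
  obtain ⟨d, hd, hd0⟩ := LevQ.comm (Or.inl rfl) (Or.inl rfl) hf hg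
  refine ⟨⁅f, g⁆, map_commutatorElement _ _ _, ?_⟩
  rw [hd0 rfl rfl] at hd
  exact hd

lemma comm23 : ⁅H2, H2⁆ ≤ ⊥ := by
  rw [Subgroup.commutator_le]
  rintro _ ⟨f, rfl, hf⟩ _ ⟨g, rfl, hg⟩
  rw [← map_commutatorElement, Subgroup.mem_bot]
  exact (QuotientGroup.eq_one_iff _).2 (LevQ.comm2 hf hg)

lemma solvable_of_le {Γ : Subgroup PCbow} (h : Γ ≤ H0) : Group.IsSolvable Γ := by
  have d0 : (derivedSeries Γ 0).map Γ.subtype ≤ H0 := by
    rintro _ ⟨x, -, rfl⟩
    exact h x.2
  have d1 : (derivedSeries Γ 1).map Γ.subtype ≤ H1 := by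
    rw [derivedSeries_succ, Subgroup.map_commutator]
    exact (Subgroup.commutator_mono d0 d0).trans comm01
  have d2 : (derivedSeries Γ 2).map Γ.subtype ≤ H2 := by
    rw [derivedSeries_succ, Subgroup.map_commutator]
    exact (Subgroup.commutator_mono d1 d1).trans comm12
  have d3 : (derivedSeries Γ 3).map Γ.subtype ≤ ⊥ := by
    rw [derivedSeries_succ, Subgroup.map_commutator]
    exact (Subgroup.commutator_mono d2 d2).trans comm23
  refine ⟨⟨3, ?_⟩⟩
  rw [le_bot_iff, Subgroup.map_eq_bot_iff_of_injective _ Γ.subtype_injective] at d3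
  exact d3

lemma Gam_le_H0 : Gam ≤ H0 := by
  unfold Gam
  rw [Subgroup.closure_le]
  intro γ hγ
  simp only [gens, Set.mem_insert_iff, Set.mem_singleton_iff] at hγ
  rcases hγ with rfl | rfl | rfl | rfl | rfl | rfl
  · exact ⟨_, rfl, 1, Or.inl rfl, _, levQ_rot _⟩
  · exact ⟨_, rfl, 1, Or.inl rfl, _, levQ_rot _⟩
  · exact ⟨_, rfl, 1, Or.inl rfl, _, levQ_rot _⟩
  · exact ⟨_, rfl, -1, Or.inr rfl, _, levQ_neg⟩
  · exact ⟨_, rfl, 1, Or.inl rfl, _, levQ_flip _⟩
  · exact ⟨_, rfl, 1, Or.inl rfl, _, levQ_flip _⟩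

lemma Gam_le_HI : Gam ≤ HI := by
  unfold Gam
  rw [Subgroup.closure_le]
  intro γ hγ
  simp only [gens, Set.mem_insert_iff, Set.mem_singleton_iff] at hγ
  rcases hγ with rfl | rfl | rfl | rfl | rfl | rfl
  · exact ⟨_, rfl, locIso_rot _⟩
  · exact ⟨_, rfl, locIso_rot _⟩
  · exact ⟨_, rfl, locIso_rot _⟩
  · exact ⟨_, rfl, locIso_neg⟩
  · exact ⟨_, rfl, locIso_flip ss_pos (by linarith [ss_lt])⟩
  · exact ⟨_, rfl, locIso_flip tt_pos (by linarith [tt_lt])⟩

lemma near_of_pi {f g : PChat} (h : pi f = pi g) : Near f.1 g.1 := by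
  unfold Near
  rw [near_iff]
  have h1 : f⁻¹ * g ∈ Sfin := QuotientGroup.eq.1 h
  exact QuotientGroup.eq.2 h1

lemma not_realizable : ¬ Realizable Gam := by
  rintro ⟨Λ, hΛ⟩
  have key : ∀ x ∈ Λ, ∀ y ∈ Λ, pi x = pi y → x = y := fun x hx y hy h => hΛ.injOn hx hy h
  have hmem : ∀ g : PChat, pi g ∈ gens → ∃ x ∈ Λ, pi x = pi g := by
    intro g hg
    obtain ⟨x, hx, hx'⟩ := hΛ.surjOn (Subgroup.subset_closure hg : pi g ∈ Gam)
    exact ⟨x, hx, hx'⟩
  obtain ⟨a, ha, ha'⟩ := hmem gA (by simp [gens])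
  obtain ⟨b, hb, hb'⟩ := hmem gB (by simp [gens])
  obtain ⟨z, hz, hz'⟩ := hmem gZ (by simp [gens])
  obtain ⟨r, hr, hr'⟩ := hmem gR (by simp [gens])
  obtain ⟨u, hu, hu'⟩ := hmem gU (by simp [gens])
  obtain ⟨v, hv, hv'⟩ := hmem gV (by simp [gens])
  have mm := fun {x y : PChat} (hx : x ∈ Λ) (hy : y ∈ Λ) => Λ.mul_mem hx hy
  have mi := fun {x : PChat} (hx : x ∈ Λ) => Λ.inv_mem hx
  have mz := fun {x : PChat} (hx : x ∈ Λ) (m : ℤ) => Λ.zpow_mem hx m
  -- relations between the explicit maps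
  have r1 : gA * gB = gB * gA := Subtype.ext (rot_comm _ _).eq
  have r2 : gA * gZ = gZ * gA := Subtype.ext (rot_comm _ _).eq
  have r3 : gR * gA * gR⁻¹ = gA⁻¹ := Subtype.ext (neg_rot _)
  have r4 : gU * gZ = gZ * gU := Subtype.ext (flip_rot_hh _)
  have r5 : gV * gZ = gZ * gV := Subtype.ext (flip_rot_hh _)
  have r6 : ∀ m : ℤ, gU * (gA ^ m * gU * gA ^ (-m)) = (gA ^ m * gU * gA ^ (-m)) * gU := by
    intro m
    apply Subtype.ext
    show flip ss * (rot al ^ m * flip ss * rot al ^ (-m)) =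
      (rot al ^ m * flip ss * rot al ^ (-m)) * flip ss
    rw [zpow_neg, rot_zpow]
    exact flip_comm ss ss _
  have r7 : ∀ m : ℤ, gV * (gA ^ m * gU * gA ^ (-m)) = (gA ^ m * gU * gA ^ (-m)) * gV := by
    intro m
    apply Subtype.ext
    show flip tt * (rot al ^ m * flip ss * rot al ^ (-m)) =
      (rot al ^ m * flip ss * rot al ^ (-m)) * flip tt
    rw [zpow_neg, rot_zpow]
    exact flip_comm ss tt _
  have r8 : gU * (gA * gV * gA⁻¹) = gV * (gB * gU * gB⁻¹) :=
    Subtype.ext (flip_cocycle ss_pos tt_pos (by linarith [ss_lt, tt_lt]))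
  have r9 : pi (gR * gU * gR⁻¹) = pi (gA⁻¹ * gU * gA) := by
    have h1 := flip_symm_near ss_pos (by linarith [ss_lt] : ss < 1)
    unfold Near at h1
    rw [near_iff] at h1
    have h2 : (negP * flip ss * negP⁻¹)⁻¹ * ((rot ((ss / 2 : ℝ) : S))⁻¹ * flip ss *
        rot ((ss / 2 : ℝ) : S)) ∈ FS S := QuotientGroup.eq.1 h1
    have h3 : (gR * gU * gR⁻¹)⁻¹ * (gA⁻¹ * gU * gA) ∈ Sfin := h2
    exact QuotientGroup.eq.2 h3
  -- transfer to the lifts
  refine core ss_pos ss_lt tt_pos tt_lt indep a.1 b.1 z.1 r.1 u.1 v.1 (near_of_pi ha')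
    (near_of_pi hb') (near_of_pi hz') (near_of_pi hr') (near_of_pi hu') (near_of_pi hv')
    ?_ ?_ ?_ ?_ ?_ ?_ ?_ ?_ ?_
  · exact congrArg Subtype.val (key _ (mm ha hb) _ (mm hb ha) (by
      rw [map_mul, map_mul, ha', hb', ← map_mul, ← map_mul, r1]))
  · exact congrArg Subtype.val (key _ (mm ha hz) _ (mm hz ha) (by
      rw [map_mul, map_mul, ha', hz', ← map_mul, ← map_mul, r2]))
  · exact congrArg Subtype.val (key _ (mm (mm hr ha) (mi hr)) _ (mi ha) (by
      rw [map_mul, map_mul, map_inv, map_inv, ha', hr', ← map_inv, ← map_inv, ← map_mul,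
        ← map_mul, r3]))
  · exact congrArg Subtype.val (key _ (mm hu hz) _ (mm hz hu) (by
      rw [map_mul, map_mul, hu', hz', ← map_mul, ← map_mul, r4]))
  · exact congrArg Subtype.val (key _ (mm hv hz) _ (mm hz hv) (by
      rw [map_mul, map_mul, hv', hz', ← map_mul, ← map_mul, r5]))
  · intro m
    exact congrArg Subtype.val (key _ (mm hu (mm (mm (mz ha m) hu) (mz ha (-m)))) _
      (mm (mm (mm (mz ha m) hu) (mz ha (-m))) hu) (by
      simp only [map_mul, map_zpow, ha', hu']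
      have := congrArg pi (r6 m)
      simp only [map_mul, map_zpow] at this
      exact this))
  · intro m
    exact congrArg Subtype.val (key _ (mm hv (mm (mm (mz ha m) hu) (mz ha (-m)))) _
      (mm (mm (mm (mz ha m) hu) (mz ha (-m))) hv) (by
      simp only [map_mul, map_zpow, ha', hu', hv']
      have := congrArg pi (r7 m)
      simp only [map_mul, map_zpow] at this
      exact this))
  · exact congrArg Subtype.val (key _ (mm hu (mm (mm ha hv) (mi ha))) _
      (mm hv (mm (mm hb hu) (mi hb))) (by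
      simp only [map_mul, map_inv, ha', hb', hu', hv']
      have := congrArg pi r8
      simp only [map_mul, map_inv] at this
      exact this))
  · exact congrArg Subtype.val (key _ (mm (mm hr hu) (mi hr)) _ (mm (mm (mi ha) hu) ha) (by
      simp only [map_mul, map_inv, ha', hr', hu']
      have := r9
      simp only [map_mul, map_inv] at this
      exact this))

/-- **A finitely generated solvable subgroup of `IET^⋈(S)` that is not realizable.** -/
theorem result : ∃ Γ : Subgroup PCbow, Γ.FG ∧ Group.IsSolvable Γ ∧ (∀ γ ∈ Γ, IsIET γ) ∧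
    ¬ Realizable Γ := by
  refine ⟨Gam, Gam_fg, solvable_of_le Gam_le_H0, ?_, not_realizable⟩
  intro γ hγ
  obtain ⟨f, hf, hf'⟩ := Gam_le_HI hγ
  exact ⟨f, hf, LocIso.piecewise hf'⟩

end Pool.Agent.Results.MP_f6bc98_an.NotRealizable
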